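import Pool.Agent.H7.CP.Targets

/-!
# (CPR) capturing by a measure and a uniformly definable relation (MP_e37c09_lc)
-/

open Ordinal Cardinal Order Set
open scoped ZFSet

universe u

namespace Pool.Agent.H18.CP.CPR

open _root_.HD

/-- the function which represents the set -/
noncomputable def hh (H : Ordinal.{u} → Set Ordinal.{u} → Prop) (ν : Ordinal.{u}) : ZFSet.{u} :=
  ZFSet.sep (fun p => ∃ b y, p = ZFSet.pair b y ∧ b ∈ ν.toZFSet ∧ HOD y ∧ y ⊆ b ∧
    H b.rank {a | a.toZFSet ∈ y}) (ZFSet.prod ν.toZFSet (ZFSet.powerset ν.toZFSet))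

theorem mem_hh {H : Ordinal.{u} → Set Ordinal.{u} → Prop} {ν : Ordinal.{u}} {p : ZFSet.{u}} :
    p ∈ hh H ν ↔ ∃ b y, p = ZFSet.pair b y ∧ b ∈ ν.toZFSet ∧ HOD y ∧ y ⊆ b ∧
      H b.rank {a | a.toZFSet ∈ y} := by
  unfold hh
  rw [ZFSet.mem_sep]
  constructor
  · exact fun h => h.2
  · rintro ⟨b, y, rfl, hb, hy, hyb, hH⟩
    refine ⟨ZFSet.pair_mem_prod.2 ⟨hb, ?_⟩, b, y, rfl, hb, hy, hyb, hH⟩
    rw [ZFSet.mem_powerset]
    intro z hz
    obtain ⟨β, hβ, rfl⟩ := mem_toZFSet_iff.1 hb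
    obtain ⟨γ, hγ, rfl⟩ := mem_toZFSet_iff.1 (hyb hz)
    exact toZFSet_mem_toZFSet_iff.2 (hγ.trans hβ)

theorem pair_mem_hh {H : Ordinal.{u} → Set Ordinal.{u} → Prop} {ν b : Ordinal.{u}}
    {y : ZFSet.{u}} : ZFSet.pair b.toZFSet y ∈ hh H ν ↔ b < ν ∧ HOD y ∧ y ⊆ b.toZFSet ∧
      H b {a | a.toZFSet ∈ y} := by
  rw [mem_hh]
  constructor
  · rintro ⟨b', y', he, hb, hy, hyb, hH⟩
    obtain ⟨h1, h2⟩ := ZFSet.pair_injective he
    subst h1
    subst h2
    rw [rank_toZFSet] at hH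
    exact ⟨toZFSet_mem_toZFSet_iff.1 hb, hy, hyb, hH⟩
  · rintro ⟨h1, h2, h3, h4⟩
    refine ⟨b.toZFSet, y, rfl, toZFSet_mem_toZFSet_iff.2 h1, h2, h3, ?_⟩
    rw [rank_toZFSet]
    exact h4

theorem hod_hh {H : Ordinal.{u} → Set Ordinal.{u} → Prop} (hH : HR H) (ν : Ordinal.{u}) :
    HOD (hh H ν) := by
  obtain ⟨en, hen⟩ := All.en.{u}
  have hE := (t_EA en hen).1
  have h1 : DO fun w => H (w 0) {a | a ∈ E en (w 1)} :=
    hH.dfn (fun a w => a ∈ E en (w 1)) (hE.s2 (X := fun x y => x ∈ E en y) 0 2) 0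
  obtain ⟨Q, hQ, hQ'⟩ := h1
  refine hod_iff.2 ⟨?_, fun p hp => ?_⟩
  · refine OD.of_mem (P := fun v => ∃ b y z, v 0 = ZFSet.pair b y ∧ b ∈ ν.toZFSet ∧ HOD y ∧
      y ⊆ b ∧ (z.IsOrdinal ∧ y = en z.rank) ∧ Q (fun n => if n = 0 then b else z)) ?_ fun v => ?_
    · refine DZ.od (R := fun a v => ∃ b y z, v 0 = ZFSet.pair b y ∧ b ∈ a ∧ HOD y ∧
        y ⊆ b ∧ (z.IsOrdinal ∧ y = en z.rank) ∧ Q (fun n => if n = 0 then b else z))
        (OD.ordinal ν) ?_
      refine DZ.ex (R := fun b v => ∃ y z, v 1 = ZFSet.pair b y ∧ b ∈ v 0 ∧ HOD y ∧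
        y ⊆ b ∧ (z.IsOrdinal ∧ y = en z.rank) ∧ Q (fun n => if n = 0 then b else z)) ?_
      refine DZ.ex (R := fun y v => ∃ z, v 2 = ZFSet.pair (v 0) y ∧ v 0 ∈ v 1 ∧ HOD y ∧
        y ⊆ v 0 ∧ (z.IsOrdinal ∧ y = en z.rank) ∧ Q (fun n => if n = 0 then v 0 else z)) ?_
      refine DZ.ex (R := fun z v => v 3 = ZFSet.pair (v 1) (v 0) ∧ v 1 ∈ v 2 ∧ HOD (v 0) ∧
        v 0 ⊆ v 1 ∧ (z.IsOrdinal ∧ v 0 = en z.rank) ∧ Q (fun n => if n = 0 then v 1 else z)) ?_
      refine (loc_pair 4 2 1).dz.and ((DZ.mem 2 3).and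
        ((Pool.Agent.H3.HD.DM.dz_hod 1).and ((Loc.sub 1 2).dz.and (hen.dz.and ?_))))
      refine (hQ.ren fun n => if n = 0 then 2 else 0).congr fun v => ?_
      have h2 : (fun n : ℕ => if n = 0 then v (1 + 1) else v 0) =
          fun n : ℕ => v (if n = 0 then 2 else 0) := by
        funext n
        split_ifs <;> rfl
      rw [h2]
    · rw [mem_hh]
      constructor
      · rintro ⟨b, y, z, h2, h3, h4, h5, ⟨h6, h7⟩, h8⟩
        refine ⟨b, y, h2, h3, h4, h5, ?_⟩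
        obtain ⟨β, hβ, rfl⟩ := mem_toZFSet_iff.1 h3
        rw [rank_toZFSet]
        have h9 : z = z.rank.toZFSet := h6.toZFSet_rank_eq.symm
        have h10 := (hQ' (fun n => if n = 0 then β else z.rank)).2 (by
          have h11 : ov (fun n => if n = 0 then β else z.rank) =
              fun n : ℕ => if n = 0 then β.toZFSet else z := by
            funext n
            unfold ov
            by_cases hn : n = 0
            · simp only [hn, if_true]
            · simp only [hn, if_false]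
              exact h9.symm
          rw [h11]
          exact h8)
        have h12 : H β (E en z.rank) := h10
        rw [h7]
        exact h12
      · rintro ⟨b, y, h2, h3, h4, h5, h6⟩
        obtain ⟨c, hc⟩ := (hen.od y).1 h4.od
        obtain ⟨β, hβ, rfl⟩ := mem_toZFSet_iff.1 h3
        rw [rank_toZFSet] at h6
        refine ⟨β.toZFSet, y, c.toZFSet, h2, h3, h4, h5,
          ⟨ZFSet.isOrdinal_toZFSet c, by rw [rank_toZFSet, hc]⟩, ?_⟩
        have h7 := (hQ' (fun n => if n = 0 then β else c)).1 (by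
          show H β (E en c)
          unfold E
          rw [hc]
          exact h6)
        have h8 : ov (fun n => if n = 0 then β else c) =
            fun n : ℕ => if n = 0 then β.toZFSet else c.toZFSet := by
          funext n
          unfold ov
          by_cases hn : n = 0
          · simp only [hn, if_true]
          · simp only [hn, if_false]
        rwa [h8] at h7
  · obtain ⟨b, y, rfl, hb, hy, -⟩ := mem_hh.1 hp
    obtain ⟨β, -, rfl⟩ := mem_toZFSet_iff.1 hb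
    exact (HOD.ordinal β).pair hy

theorem X : T_CPR.{u} := by
  intro H ν U A hH hU hA hAν hAU
  refine ⟨U, hh H ν, (All.hmi ν U).2 hU, hod_hh hH ν, fun x hx hxν => ?_⟩
  have hY : DS {a : Ordinal.{u} | a.toZFSet ∈ x} := hx.od.ds
  have h1 : x = os ν {a : Ordinal.{u} | a.toZFSet ∈ x} := by
    ext z
    rw [mem_os]
    constructor
    · intro hz
      obtain ⟨a, ha, rfl⟩ := mem_toZFSet_iff.1 (hxν hz)
      exact ⟨a, ha, hz, rfl⟩
    · rintro ⟨a, _, h, rfl⟩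
      exact h
  have h2 : (ν.toZFSet).sep (fun b => ZFSet.pair b (x ∩ b) ∈ hh H ν) =
      os ν {ξ | H ξ {a : Ordinal.{u} | a.toZFSet ∈ x}} := by
    ext z
    rw [ZFSet.mem_sep, mem_os]
    have key : ∀ a < ν, ZFSet.pair a.toZFSet (x ∩ a.toZFSet) ∈ hh H ν ↔
        H a {a : Ordinal.{u} | a.toZFSet ∈ x} := by
      intro a ha
      rw [pair_mem_hh]
      have h3 : x ∩ a.toZFSet = os a {a : Ordinal.{u} | a.toZFSet ∈ x} := by
        ext z
        rw [ZFSet.mem_inter, mem_os]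
        constructor
        · rintro ⟨h4, h5⟩
          obtain ⟨b, hb, rfl⟩ := mem_toZFSet_iff.1 h5
          exact ⟨b, hb, h4, rfl⟩
        · rintro ⟨b, hb, h4, rfl⟩
          exact ⟨h4, toZFSet_mem_toZFSet_iff.2 hb⟩
      have h4 : HOD (x ∩ a.toZFSet) := by
        rw [h3]
        exact hod_os hY a
      have h5 : x ∩ a.toZFSet ⊆ a.toZFSet := fun z hz => (ZFSet.mem_inter.1 hz).2
      have h6 : H a {c : Ordinal.{u} | c.toZFSet ∈ x ∩ a.toZFSet} ↔
          H a {a : Ordinal.{u} | a.toZFSet ∈ x} := by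
        refine hH.ext a _ _ fun c hc => ?_
        show c.toZFSet ∈ x ∩ a.toZFSet ↔ c.toZFSet ∈ x
        rw [ZFSet.mem_inter]
        exact and_iff_left (toZFSet_mem_toZFSet_iff.2 hc)
      rw [h6]
      exact ⟨fun h => h.2.2.2, fun h => ⟨ha, h4, h5, h⟩⟩
    constructor
    · rintro ⟨h3, h4⟩
      obtain ⟨a, ha, rfl⟩ := mem_toZFSet_iff.1 h3
      exact ⟨a, ha, (key a ha).1 h4, rfl⟩
    · rintro ⟨a, ha, h3, rfl⟩
      exact ⟨toZFSet_mem_toZFSet_iff.2 ha, (key a ha).2 h3⟩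
  rw [h2, ← hAU _ hY, ← h1]

end Pool.Agent.H18.CP.CPR
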