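import Pool.Agent.H7.CP.Targets2
import Pool.Agent.H7.HD.All6
import Pool.Agent.H66.HD9.EK
import Pool.Agent.H77.HDA.SRG

/-!
# MP_e37c09_lc, module CVW: covering of a function with few values at almost all points
-/

set_option autoImplicit false

open Ordinal Cardinal Order Set
open scoped ZFSet

universe u

namespace Pool.Agent.H18.CP.CVW

open _root_.HD

theorem few_bound {K : Cardinal.{u}} {ρ : Ordinal.{u}} (hρ : K ≤ ρ.cof) (h0 : 0 < ρ)
    {b : Ordinal.{u} → Ordinal.{u}} (hb : Few K.ord {x | ∃ ν < K.ord, b ν = x})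
    (hl : ∀ ν < K.ord, b ν < ρ) : ∃ s < ρ, ∀ ν < K.ord, b ν ≤ s := by
  classical
  obtain ⟨τ, hτ, e, he⟩ := hb
  obtain ⟨s, hs, hs2⟩ := Pool.Agent.H3.HD.exists_bound (ρ := ρ) (τ := τ)
    ((Cardinal.lt_ord.1 hτ).trans_le hρ) (fun a => if e a < ρ then e a else 0)
    (fun a _ => by
      by_cases h : e a < ρ
      · simp only [h, if_true]
      · simp only [h, if_false]
        exact h0)
  refine ⟨s, hs, fun ν hν => ?_⟩
  obtain ⟨a, ha, hea⟩ := he (b ν) ⟨ν, hν, rfl⟩
  have h1 := hs2 a ha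
  have h2 : e a < ρ := by
    rw [hea]
    exact hl ν hν
  simp only [h2, if_true] at h1
  rw [hea] at h1
  exact h1

theorem few_map {δ : Ordinal.{u}} {b : Ordinal.{u} → Ordinal.{u}}
    (hb : Few δ {x | ∃ ν < δ, b ν = x}) (g : Ordinal.{u} → Ordinal.{u}) :
    Few δ {x | ∃ ν < δ, g (b ν) = x} := by
  obtain ⟨τ, hτ, e, he⟩ := hb
  refine ⟨τ, hτ, fun a => g (e a), ?_⟩
  rintro x ⟨ν, hν, rfl⟩
  obtain ⟨a, ha, hea⟩ := he (b ν) ⟨ν, hν, rfl⟩
  exact ⟨a, ha, congrArg g hea⟩

theorem exc_mono {K : Cardinal.{u}} {lam lam' τ : Ordinal.{u}} (h : Exc K lam' τ)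
    (hle : lam' ≤ lam) : Exc K lam τ := ⟨h.1, h.2.1.trans hle, h.2.2.1, h.2.2.2⟩

/-- the code of `a ↦ e lam (af en z2 a)` -/
theorem code {en : Ordinal.{u} → ZFSet.{u}} (hen : EN en) {q : Ordinal.{u} → Ordinal.{u}}
    {e m : Ordinal.{u} → Ordinal.{u} → Ordinal.{u}} (hq : QEM q e m) (lam z2 κ : Ordinal.{u}) :
    ∃ z, ∀ a < κ, af en z a = e lam (af en z2 a) := by
  obtain ⟨z, hz⟩ := (Pool.Agent.H66.HD9.FN.X en hen).2 (fun a => e lam (af en z2 a)) (by
    refine (DO.ex (R := fun c w => c = af en z2 (w 0) ∧ w 1 = e lam c)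
      (DO.and ?_ ?_)).congr fun w => ?_
    · refine DO.sub z2 (R := fun z w => w 0 = af en z (w 1)) ?_
      exact DO.s3 (X := fun a z c => c = af en z a) (Pool.Agent.H66.HD9.FN.do_af hen) 2 0 1
    · refine DO.sub lam (R := fun l w => w 2 = e l (w 0)) ?_
      exact DO.s3 (X := fun a b c => c = e a b) hq.de 0 1 3
    · constructor
      · intro h
        exact ⟨_, rfl, h⟩
      · rintro ⟨c, rfl, h⟩
        exact h) κ
  exact ⟨z, hz⟩

theorem X : T_CVW.{u} := by
  classical
  intro en hen D K lam W hD hD0 hK hDK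
  obtain ⟨q, e, m, hq⟩ := All.qe.{u}
  induction lam using WellFoundedLT.induction with
  | ind lam ih =>
    intro hlam hW hExc b hb hl
    have hK0 : ℵ₀ < K := hD0.trans hDK
    have hKlim : IsSuccLimit K.ord := Cardinal.isSuccLimit_ord hK0.le
    have hKpos : 0 < K.ord := by
      have : (0 : Ordinal.{u}) < K.ord := by
        refine lt_of_lt_of_le ?_ (Cardinal.ord_le_ord.2 hK0.le)
        rw [Cardinal.ord_aleph0]
        exact Ordinal.omega0_pos
      exact this
    rcases le_or_gt lam K.ord with hle | hKl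
    · -- the identity
      obtain ⟨s, hs, hs2⟩ := few_bound (ρ := K.ord) (by rw [hK.cof_ord]) hKpos hb
        (fun ν hν => (hl ν hν).trans_le hle)
      obtain ⟨z, hz⟩ := (Pool.Agent.H66.HD9.FN.X en hen).2 (fun a => a) (DO.eq 1 0) K.ord
      refine ⟨z, s + 1, hKlim.add_one_lt hs, Filter.mem_of_superset hW.lt fun ν hν => ?_⟩
      exact ⟨b ν, (hs2 ν hν).trans_lt (_root_.lt_add_one s), hz _ ((hl ν hν).trans_le hle)⟩
    by_cases hcard : CardHOD lam
    swap
    · have hql : q lam < lam := by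
        refine lt_of_le_of_ne (hq.em.ql lam) fun he => hcard ?_
        rw [← he]
        exact hq.card lam
      obtain ⟨z2, i, hi, h⟩ := ih (q lam) hql (hql.trans hlam) hW
        (fun τ hτ => hExc τ (exc_mono hτ hql.le)) (fun ν => m lam (b ν))
        (few_map hb (m lam)) (fun ν hν => hq.em.ml lam _ (hl ν hν))
      obtain ⟨z, hz⟩ := code hen hq lam z2 K.ord
      refine ⟨z, i, hi, Filter.mem_of_superset (Filter.inter_mem h hW.lt) fun ν hν => ?_⟩
      obtain ⟨⟨j, hj, hjz⟩, hνK⟩ := hν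
      refine ⟨j, hj, ?_⟩
      rw [hz j (hj.trans hi), hjz]
      exact hq.em.em lam _ (hl ν hνK)
    -- `lam` is a cardinal of HOD
    have hωl : ω ≤ lam := by
      refine le_of_lt (lt_of_le_of_lt ?_ hKl)
      rw [← Cardinal.ord_aleph0]
      exact Cardinal.ord_le_ord.2 hK0.le
    have hl0 : 0 < lam := hKpos.trans hKl
    have hsucc : ∀ x < lam, x + 1 < lam := fun x hx =>
      Pool.Agent.H77.HDA.SRG.succ_lt hcard hωl hx
    have hlim : IsSuccLimit lam := by
      refine ⟨fun hmin => ?_, fun y hy => hy.2 (_root_.lt_add_one y) (hsucc y hy.1)⟩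
      have := hmin.eq_bot
      rw [this] at hl0
      exact absurd hl0 (lt_irrefl _)
    have hcof : lam.cof ≤ K := by
      refine (Ordinal.cof_le_card lam).trans ?_
      exact Order.lt_succ_iff.1 (Cardinal.lt_ord.1 hlam)
    rcases hcof.eq_or_lt with hc | hc
    · -- the values are bounded
      obtain ⟨y, hy, hy2⟩ := few_bound (ρ := lam) hc.ge hl0 hb hl
      exact ih (y + 1) (hsucc y hy) ((hsucc y hy).trans hlam) hW
        (fun τ hτ => hExc τ (exc_mono hτ (hsucc y hy).le)) b hb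
        (fun ν hν => (hy2 ν hν).trans_lt (_root_.lt_add_one y))
    · have hcD : lam.cof < D := hExc lam ⟨hKl, le_rfl, hcard, hc.ne⟩
      obtain ⟨n, hn1, -, hn3⟩ := Pool.Agent.H2.HD.UV.exists_seq hlim
      have hN : ∀ y < lam, ∃ i < lam.cof.ord, y < n i + 1 := by
        intro y hy
        obtain ⟨i, hi, h⟩ := hn3 y hy
        exact ⟨i, hi, h.trans (_root_.lt_add_one _)⟩
      have hcl : ∃ l < lam.cof.ord, {ν | b ν < n l + 1} ∈ W := by
        by_contra hcon
        push Not at hcon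
        have h1 := hW.cmp lam.cof.ord (Cardinal.ord_lt_ord.2 hcD)
          (fun l => {ν | b ν < n l + 1}ᶜ) (fun l hl' =>
            Ultrafilter.compl_mem_iff_notMem.2 (hcon l hl'))
        obtain ⟨ν, hν1, hν2⟩ := W.nonempty_of_mem (Filter.inter_mem h1 hW.lt)
        obtain ⟨i, hi, hi2⟩ := hN _ (hl ν hν2)
        exact hν1 i hi hi2
      obtain ⟨l, hl', hlW⟩ := hcl
      obtain ⟨z, i, hi, h⟩ := ih (n l + 1) (hsucc _ (hn1 l hl')) ((hsucc _ (hn1 l hl')).trans hlam)
        hW (fun τ hτ => hExc τ (exc_mono hτ (hsucc _ (hn1 l hl')).le))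
        (fun ν => if b ν < n l + 1 then b ν else 0)
        (few_map hb (fun x => if x < n l + 1 then x else 0)) (fun ν _ => by
          by_cases h : b ν < n l + 1
          · simp only [h, if_true]
          · simp only [h, if_false]
            exact lt_of_le_of_lt bot_le (_root_.lt_add_one (n l)))
      refine ⟨z, i, hi, Filter.mem_of_superset (Filter.inter_mem h hlW) fun ν hν => ?_⟩
      obtain ⟨⟨j, hj, hjz⟩, hνl⟩ := hν
      have hνl' : b ν < n l + 1 := hνl
      simp only [hνl', if_true] at hjz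
      exact ⟨j, hj, hjz⟩

end Pool.Agent.H18.CP.CVW
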