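import Pool.Agent.H7.CP.Targets3
import Pool.Agent.H7.CP.RZ
import Pool.Agent.H3.CP.CD3
import Pool.Agent.H3.CP.CD2

/-!
# MP_e37c09_lc, module DFR: definability of `R2` and `FCf`
-/

set_option autoImplicit false

open Ordinal Cardinal Order Set
open scoped ZFSet

universe u

namespace Pool.Agent.H18.CP.DFR

open _root_.HD Pool.Agent.H3.HD.DM Pool.Agent.H3.CP.CD3 Pool.Agent.H3.CP.CD2

/-- `RfU` in terms of sets -/
def RFUZ (A k U : ZFSet.{u}) : Prop :=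
  HMZ k U ∧ ∀ x, HOD x → x ⊆ k → (ZFSet.pair k x ∈ A ↔ ∃ z ∈ U, ∀ b, b ∈ z ↔ b ∈ k ∧
    ∃ c, ZFSet.pair b c ∈ A ∧ ∀ d, d ∈ c ↔ d ∈ x ∧ d ∈ b)

/-- `CpU` in terms of sets -/
def CPUZ (B k U : ZFSet.{u}) : Prop :=
  ∃ h, HOD h ∧ ∀ x, HOD x → x ⊆ k → (x ∈ B ↔ ∃ z ∈ U, ∀ b, b ∈ z ↔ b ∈ k ∧
    ∃ c, ZFSet.pair b c ∈ h ∧ ∀ d, d ∈ c ↔ d ∈ x ∧ d ∈ b)

theorem rfu_iff {ν : Ordinal.{u}} {A U : ZFSet.{u}} : RfU A ν U ↔ RFUZ A ν.toZFSet U := by
  unfold RfU RFUZ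
  refine and_congr hmeas_iff (forall_congr' fun x => imp_congr_right
    fun _ => imp_congr_right fun _ => iff_congr Iff.rfl ?_)
  rw [sep_mem]
  exact exists_congr fun z => and_congr_right fun _ => forall_congr' fun b =>
    iff_congr Iff.rfl (and_congr_right fun _ => pair_inter)

theorem cpu_iff {ν : Ordinal.{u}} {B U : ZFSet.{u}} : CpU B ν U ↔ CPUZ B ν.toZFSet U := by
  unfold CpU CPUZ
  refine exists_congr fun h => and_congr_right fun _ => forall_congr' fun x => imp_congr_right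
    fun _ => imp_congr_right fun _ => iff_congr Iff.rfl ?_
  rw [sep_mem]
  exact exists_congr fun z => and_congr_right fun _ => forall_congr' fun b =>
    iff_congr Iff.rfl (and_congr_right fun _ => pair_inter)

theorem dz_rfu (i j l : ℕ) : DZ.{u} fun v => RFUZ (v i) (v j) (v l) := by
  refine DZ.and (dz_HMZ j l) (DZ.all (DZ.imp (dz_hod 0) (DZ.imp (Loc.sub 0 (j + 1)).dz
    (DZ.iff (loc_pmem (j + 1) 0 (i + 1)).dz (DZ.exMem (l + 1) (DZ.all (DZ.iff (DZ.mem 0 1)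
      (DZ.and (DZ.mem 0 (j + 3)) ?_))))))))
  exact DZ.ex (DZ.and (loc_pmem 1 0 (i + 4)).dz (DZ.all (DZ.iff (DZ.mem 0 1)
    (DZ.and (DZ.mem 0 4) (DZ.mem 0 2)))))

theorem dz_cpu (i j l : ℕ) : DZ.{u} fun v => CPUZ (v i) (v j) (v l) := by
  refine DZ.ex (DZ.and (dz_hod 0) (DZ.all (DZ.imp (dz_hod 0) (DZ.imp (Loc.sub 0 (j + 2)).dz
    (DZ.iff (DZ.mem 0 (i + 2)) (DZ.exMem (l + 2) (DZ.all (DZ.iff (DZ.mem 0 1)
      (DZ.and (DZ.mem 0 (j + 4)) ?_)))))))))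
  exact DZ.ex (DZ.and (loc_pmem 1 0 4).dz (DZ.all (DZ.iff (DZ.mem 0 1)
    (DZ.and (DZ.mem 0 4) (DZ.mem 0 2)))))

theorem ds_fcf {A : ZFSet.{u}} (hA : OD A) : DS {ν : Ordinal.{u} | FCf A ν} := by
  refine ⟨fun v => ∃ y : ZFSet.{u}, y = A ∧ ∀ B : ZFSet.{u}, HOD B → (∀ x ∈ B, x ⊆ v 0) →
    ∃ U, RFUZ y (v 0) U ∧ CPUZ B (v 0) U, ?_, ?_⟩
  · exact DZ.ex (DZ.and (hA.eqv 0) (DZ.all (DZ.imp (dz_hod 0) (DZ.imp
      (DZ.allMem 0 (Loc.sub 0 3).dz) (DZ.ex (DZ.and (dz_rfu 2 3 0) (dz_cpu 1 3 0)))))))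
  · intro w
    constructor
    · intro h
      refine ⟨A, rfl, fun B hB hBν => ?_⟩
      obtain ⟨U, h1, h2⟩ := h B hB hBν
      exact ⟨U, rfu_iff.1 h1, cpu_iff.1 h2⟩
    · rintro ⟨y, rfl, h⟩
      intro B hB hBν
      obtain ⟨U, h1, h2⟩ := h B hB hBν
      exact ⟨U, rfu_iff.2 h1, cpu_iff.2 h2⟩

/-- `c` is the code of a set which is not captured by a measure which reflects `A` -/
def UA (en : Ordinal.{u} → ZFSet.{u}) (A : ZFSet.{u}) (ν c : Ordinal.{u}) : Prop :=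
  HOD (en c) ∧ (∀ x ∈ en c, x ⊆ ν.toZFSet) ∧ ¬ ∃ U, RfU A ν U ∧ CpU (en c) ν U

/-- `UA` is definable. -/
theorem do_ua {en : Ordinal.{u} → ZFSet.{u}} (hen : EN en) {A : ZFSet.{u}} (hA : OD A) :
    DO fun w => UA en A (w 0) (w 1) := by
  refine DO.and ?_ (DO.and ?_ (DO.not ?_))
  · refine ⟨fun v => ∃ y : ZFSet.{u}, ((v 1).IsOrdinal ∧ y = en (v 1).rank) ∧ HOD y, ?_, ?_⟩
    · exact DZ.ex (DZ.and (hen.dz.ren fun n => if n = 0 then 2 else 0) (dz_hod 0))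
    · intro w
      constructor
      · intro hh
        exact ⟨_, ⟨ZFSet.isOrdinal_toZFSet _, rfl⟩, by simpa [ov, rank_toZFSet] using hh⟩
      · rintro ⟨y, ⟨-, rfl⟩, hh⟩
        simpa [ov, rank_toZFSet] using hh
  · refine ⟨fun v => ∃ y : ZFSet.{u}, ((v 1).IsOrdinal ∧ y = en (v 1).rank) ∧
      ∀ x ∈ y, x ⊆ v 0, ?_, ?_⟩
    · exact DZ.ex (DZ.and (hen.dz.ren fun n => if n = 0 then 2 else 0)
        (DZ.allMem 0 (Loc.sub 0 2).dz))
    · intro w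
      constructor
      · intro hh
        exact ⟨_, ⟨ZFSet.isOrdinal_toZFSet _, rfl⟩, by simpa [ov, rank_toZFSet] using hh⟩
      · rintro ⟨y, ⟨-, rfl⟩, hh⟩
        simpa [ov, rank_toZFSet] using hh
  · refine ⟨fun v => ∃ y : ZFSet.{u}, ((v 1).IsOrdinal ∧ y = en (v 1).rank) ∧
      ∃ a : ZFSet.{u}, a = A ∧ ∃ U : ZFSet.{u}, RFUZ a (v 0) U ∧ CPUZ y (v 0) U, ?_, ?_⟩
    · exact DZ.ex (DZ.and (hen.dz.ren fun n => if n = 0 then 2 else 0)
        (DZ.ex (DZ.and (hA.eqv 0) (DZ.ex (DZ.and (dz_rfu 1 3 0) (dz_cpu 2 3 0))))))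
    · intro w
      constructor
      · rintro ⟨U, h1, h2⟩
        refine ⟨_, ⟨ZFSet.isOrdinal_toZFSet _, rfl⟩, A, rfl, U, rfu_iff.1 h1, ?_⟩
        have h3 := cpu_iff.1 h2
        simpa [ov, rank_toZFSet] using h3
      · rintro ⟨y, ⟨-, rfl⟩, a, rfl, U, h1, h2⟩
        refine ⟨U, rfu_iff.2 h1, cpu_iff.2 ?_⟩
        simpa [ov, rank_toZFSet] using h2

theorem cd_iff {en : Ordinal.{u} → ZFSet.{u}} {A : ZFSet.{u}} {a b : Ordinal.{u}} :
    b = cd en A a ↔ (UA en A a b ∧ ∀ x < b, ¬ UA en A a x) ∨ ((¬ ∃ x, UA en A a x) ∧ b = 0) := by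
  have hcd : cd en A a = sInf {c | UA en A a c} := rfl
  rw [hcd]
  by_cases hne : ∃ x, UA en A a x
  · have hs : ({c | UA en A a c} : Set Ordinal.{u}).Nonempty := hne
    have hm : UA en A a (sInf {c | UA en A a c}) := csInf_mem hs
    constructor
    · rintro rfl
      exact Or.inl ⟨hm, fun x hx hu =>
        absurd (csInf_le' (s := {c | UA en A a c}) hu) (not_le.2 hx)⟩
    · rintro (⟨h1, h2⟩ | ⟨h1, -⟩)
      · refine le_antisymm ?_ (csInf_le' (s := {c | UA en A a c}) h1)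
        by_contra hlt
        exact h2 _ (not_le.1 hlt) hm
      · exact absurd hne h1
  · have hs : ({c | UA en A a c} : Set Ordinal.{u}) = ∅ := by
      ext c
      constructor
      · intro hc
        exact absurd ⟨c, hc⟩ hne
      · intro hc
        exact absurd hc (Set.notMem_empty c)
    rw [hs, Ordinal.sInf_empty]
    constructor
    · intro hb
      exact Or.inr ⟨hne, hb⟩
    · rintro (⟨h1, -⟩ | ⟨-, h2⟩)
      · exact absurd ⟨b, h1⟩ hne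
      · exact h2

theorem dr_cd {en : Ordinal.{u} → ZFSet.{u}} (hen : EN en) {A : ZFSet.{u}} (hA : OD A) :
    DR fun a b => b = cd en A a := by
  have hu := do_ua hen hA
  refine DO.congr (A := fun w => (UA en A (w 0) (w 1) ∧ ∀ x < w 1, ¬ UA en A (w 0) x) ∨
    ((¬ ∃ x, UA en A (w 0) x) ∧ w 1 = 0)) ?_ fun w => cd_iff
  refine DO.or (DO.and hu (DO.allLt 1 ?_)) (DO.and (DO.not (DO.ex ?_)) (DO.eqc 1 0))
  · exact (hu.s2 1 0).not
  · exact hu.s2 1 0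

theorem X : T_DFR.{u} := by
  intro en hen A hA
  refine ⟨⟨?_, ?_⟩, ds_fcf hA⟩
  · intro β ν X Y hXY
    unfold R2
    rw [os_congr hXY]
  · intro Y hY k i
    have h1 : DO fun w => os (w (i + 1)) {a | Y a (fun n => w (n + 1))} ∈ en (w 0) := by
      refine (DO.setArg (R := fun (s : ZFSet.{u}) (v : ℕ → ZFSet.{u}) =>
          ∃ y : ZFSet.{u}, ((v 0).IsOrdinal ∧ y = en (v 0).rank) ∧ s ∈ y) ?_
        (X := fun (a : Ordinal.{u}) (w : ℕ → Ordinal.{u}) => Y a (fun n => w (n + 1))) ?_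
        (i + 1)).congr fun w => ?_
      · exact DZ.ex (DZ.and (hen.dz.ren fun n => if n = 0 then 2 else 0) (DZ.mem 1 0))
      · exact hY.ren fun n => if n = 0 then 0 else n + 1
      · constructor
        · intro hh
          exact ⟨_, ⟨ZFSet.isOrdinal_toZFSet _, rfl⟩, by simpa [ov, rank_toZFSet] using hh⟩
        · rintro ⟨y, ⟨-, rfl⟩, hh⟩
          simpa [ov, rank_toZFSet] using hh
    have h2 : DO fun w => os (w i) {a | Y a w} ∈ en (cd en A (w i)) := by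
      refine DO.congr (A := fun w => ∃ c, c = cd en A (w i) ∧ os (w i) {a | Y a w} ∈ en c)
        (DO.ex ?_) fun w => ?_
      · exact DO.and (DO.s2 (X := fun a b => b = cd en A a) (dr_cd hen hA) (i + 1) 0) h1
      · constructor
        · intro hh
          exact ⟨_, rfl, hh⟩
        · rintro ⟨c, rfl, hh⟩
          exact hh
    exact DO.or (DO.and (DO.eqc k 0) ((Pool.Agent.H7.CP.RZ.hr hA).dfn Y hY i))
      (DO.and (DO.not (DO.eqc k 0)) h2)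

end Pool.Agent.H18.CP.DFR
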