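import Mathlib
import Pool.Agent.H57.CP.Targets

/-!
# Discreteness of the planar Coxeter groups (module DSC)
-/

namespace Pool.Agent.H18.CP

open Pool.Agent.H57.CP

theorem refl_self (a : V4) (h : mk a a = -1) : Pool.Agent.H57.CP.refl a a = -a := by
  ext i
  simp only [Pool.Agent.H57.CP.refl, LinearMap.coe_mk, AddHom.coe_mk, Pi.neg_apply]
  rw [h]; ring

/-- a right descent makes the image of the root negative -/
theorem neg_root (h1 : T_TIT) (h2 : T_ROO) {a b : ℕ} {σ : (cm a b).Group →* Module.End ℝ V4}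
    (hab : Hyp a b) (hσ : Sig a b σ) (w : (cm a b).Group) (i : Fin 3)
    (hi : (cm a b).toCoxeterSystem.IsRightDescent w i) :
    ∃ c : Fin 3 → ℝ, (∀ j, 0 ≤ c j) ∧ σ (w * sm a b i) (al a b i) = ∑ j, c j • al a b j ∧
      σ w (al a b i) = -∑ j, c j • al a b j := by
  have h3 : ¬ (cm a b).toCoxeterSystem.IsRightDescent (w * sm a b i) i :=
    ((cm a b).toCoxeterSystem.isRightDescent_iff_not_isRightDescent_mul).1 hi
  obtain ⟨c, hc, hc'⟩ := h1 a b σ hab hσ _ i h3
  refine ⟨c, hc, hc', ?_⟩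
  have h4 : w = (w * sm a b i) * sm a b i := by
    rw [mul_assoc, CoxeterSystem.simple_mul_simple_self, mul_one]
  have h5 : σ w (al a b i) = σ (w * sm a b i) (Pool.Agent.H57.CP.refl (al a b i) (al a b i)) := by
    conv_lhs => rw [h4]
    rw [map_mul, hσ i]
    rfl
  rw [h5, refl_self _ ((h2 a b hab).2.1 i), map_neg, hc']

theorem sin_pos' {a b : ℕ} (h : Hyp a b) : 0 < Real.sin (Real.pi / (2 * b)) := by
  have hb : (2 : ℝ) ≤ b := by exact_mod_cast h.2.1
  apply Real.sin_pos_of_pos_of_lt_pi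
  · have := Real.pi_pos; positivity
  · rw [div_lt_iff₀ (by positivity)]
    nlinarith [Real.pi_pos]

theorem dsc (h1 : T_TIT) (h2 : T_ROO) : T_DSC := by
  intro a b σ hab hσ
  have hc := (h2 a b hab).1
  have hsn := sin_pos' hab
  set sn := Real.sin (Real.pi / (2 * b)) with hsn'
  set cs := Real.cos (Real.pi / (2 * b)) with hcs'
  set c₀ := c0 a b with hc₀
  set s := Real.sqrt (c₀ ^ 2 - 1) with hs'
  have hs : 0 < s := Real.sqrt_pos.2 (by nlinarith)
  have hcs : cs ≤ 1 := Real.cos_le_one _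
  have hK : 0 < 1 + c₀ / s + sn := by positivity
  obtain ⟨ε, hε, hε1, hε2⟩ : ∃ ε : ℝ, 0 < ε ∧ ε ≤ s ∧ ε * (1 + c₀ / s + sn) ≤ sn := by
    refine ⟨min s (sn / (1 + c₀ / s + sn)), lt_min hs (by positivity), min_le_left _ _, ?_⟩
    calc min s (sn / (1 + c₀ / s + sn)) * (1 + c₀ / s + sn)
        ≤ (sn / (1 + c₀ / s + sn)) * (1 + c₀ / s + sn) :=
          mul_le_mul_of_nonneg_right (min_le_right _ _) hK.le
      _ = sn := by field_simp
  refine ⟨ε, hε, fun w hw => ?_⟩
  by_contra hne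
  obtain ⟨i, hi⟩ := (cm a b).toCoxeterSystem.exists_rightDescent_of_ne_one hne
  obtain ⟨c, hcp, -, hcn⟩ := neg_root h1 h2 hab hσ w i hi
  have e0 := hw i 0
  have e1 := hw i 1
  have e3 := hw i 3
  rw [hcn] at e0 e1 e3
  have f0 : (-∑ j, c j • al a b j) 0 = c₀ * c 0 - sn * c 1 := by
    simp [Fin.sum_univ_three, al]; ring
  have f1 : (-∑ j, c j • al a b j) 1 = cs * c 1 - c 2 := by
    simp [Fin.sum_univ_three, al]; ring
  have f3 : (-∑ j, c j • al a b j) 3 = s * c 0 := by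
    simp [Fin.sum_univ_three, al]; ring
  rw [f0] at e0
  rw [f1] at e1
  rw [f3] at e3
  rw [abs_lt] at e0 e1 e3
  have p0 := hcp 0
  have p1 := hcp 1
  have p2 := hcp 2
  fin_cases i
  · have g3 : al a b 0 3 = -s := by simp [al, hs', hc₀]
    simp only [Fin.zero_eta, Fin.isValue] at e3
    rw [g3] at e3
    nlinarith [e3.2, mul_nonneg hs.le p0]
  · have g3 : al a b 1 3 = 0 := by simp [al]
    have g0 : al a b 1 0 = sn := by simp [al, hsn']
    simp only [Fin.mk_one, Fin.isValue] at e0 e3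
    rw [g3] at e3
    rw [g0] at e0
    have h5 : c 0 < ε / s := by rw [lt_div_iff₀ hs]; linarith [e3.2]
    have h6 : c₀ * c 0 < c₀ * (ε / s) := mul_lt_mul_of_pos_left h5 (by linarith)
    have h7 : c₀ * (ε / s) = ε * (c₀ / s) := by ring
    nlinarith [e0.1, mul_nonneg hsn.le p1, mul_nonneg hε.le hsn.le]
  · have g3 : al a b 2 3 = 0 := by simp [al]
    have g0 : al a b 2 0 = 0 := by simp [al]
    have g1 : al a b 2 1 = 1 := by simp [al]
    simp only [Fin.reduceFinMk, Fin.isValue] at e0 e1 e3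
    rw [g3] at e3
    rw [g0] at e0
    rw [g1] at e1
    have h5 : c 0 < ε / s := by rw [lt_div_iff₀ hs]; linarith [e3.2]
    have h6 : c₀ * c 0 < c₀ * (ε / s) := mul_lt_mul_of_pos_left h5 (by linarith)
    have h7 : c₀ * (ε / s) = ε * (c₀ / s) := by ring
    have h8 : cs * c 1 ≤ c 1 := mul_le_of_le_one_left p1 hcs
    have h9 : 1 - ε < c 1 := by linarith [e1.1]
    have h10 : sn * (1 - ε) < sn * c 1 := mul_lt_mul_of_pos_left h9 hsn
    nlinarith [e0.1]

end Pool.Agent.H18.CP
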