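import Mathlib
import Pool.Agent.H57.CP.Targets

/-!
# The generators are the rotations (module EF)
-/

namespace Pool.Agent.H18.CP

open Pool.Agent.H57.CP

theorem img_mul (g h : Equiv.Perm H3) (s : Set H3) :
    (g * h : Equiv.Perm H3) '' s = g '' (h '' s) := by
  rw [Set.image_image]; rfl

theorem img2_mul (g h : Equiv.Perm H3) (s : Set (Set H3)) :
    (Set.image (g * h : Equiv.Perm H3)) '' s = (Set.image g) '' ((Set.image h) '' s) := by
  rw [Set.image_image]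
  apply Set.image_congr
  intro a _
  exact img_mul g h a

theorem img_one (s : Set H3) : (1 : Equiv.Perm H3) '' s = s := by
  simp

theorem img2_one (s : Set (Set H3)) : (Set.image (1 : Equiv.Perm H3)) '' s = s := by
  ext x; simp

theorem inv_img (g : Equiv.Perm H3) (s : Set H3) : (g⁻¹ : Equiv.Perm H3) '' (g '' s) = s := by
  rw [← img_mul, inv_mul_cancel, img_one]

theorem inv_img2 (g : Equiv.Perm H3) (s : Set (Set H3)) :
    (Set.image (g⁻¹ : Equiv.Perm H3)) '' ((Set.image g) '' s) = s := by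
  rw [← img2_mul, inv_mul_cancel, img2_one]

/-- elements of the group preserve the polyhedron -/
theorem sy_of {v v' : H3} {S T g : Equiv.Perm H3} (hg : g ∈ Gr S T) (hi : IsIso g) :
    Sy (Kst v v' S T) g where
  iso := hi
  v := by
    have key : ∀ k ∈ Gr S T, ∀ x ∈ Orb v S T, k x ∈ Orb v S T := by
      rintro k hk x ⟨h, hh, rfl⟩
      exact ⟨k * h, mul_mem hk hh, rfl⟩
    intro x
    refine ⟨fun h => ?_, key g hg x⟩
    have h4 := key g⁻¹ (inv_mem hg) _ h
    rw [← Equiv.Perm.mul_apply, inv_mul_cancel] at h4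
    exact h4
  e := by
    have key : ∀ k ∈ Gr S T, ∀ e ∈ (Kst v v' S T).E, k '' e ∈ (Kst v v' S T).E := by
      rintro k hk e ⟨h, hh, rfl⟩
      exact ⟨k * h, mul_mem hk hh, (img_mul _ _ _).symm⟩
    intro x
    refine ⟨fun h => ?_, key g hg x⟩
    have := key g⁻¹ (inv_mem hg) _ h
    rwa [inv_img] at this
  f := by
    have key : ∀ k ∈ Gr S T, ∀ e ∈ (Kst v v' S T).F, (Set.image k) '' e ∈ (Kst v v' S T).F := by
      rintro k hk e ⟨h, hh, rfl⟩
      exact ⟨k * h, mul_mem hk hh, (img2_mul _ _ _).symm⟩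
    intro x
    refine ⟨fun h => ?_, key g hg x⟩
    have := key g⁻¹ (inv_mem hg) _ h
    rwa [inv_img2] at this

theorem pair_inj {v a b : H3} (h : ({v, a} : Set H3) = {v, b}) (ha : a ≠ v) : a = b := by
  have : a ∈ ({v, b} : Set H3) := by rw [← h]; simp
  rcases this with h1 | h1
  · exact absurd h1 ha
  · exact h1

theorem ef (h1 : T_EA) (h2 : T_EB) (_h3 : T_EC) : T_EF := by
  intro v v' S T q G _
  obtain ⟨-, -, -, hTv', hS1, hS2⟩ := h1 v v' S T q G
  obtain ⟨hB1, hB2, hB3, -⟩ := h2 v v' S T q G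
  have hSm : S ∈ Gr S T := Subgroup.subset_closure (by simp)
  have hTm : T ∈ Gr S T := Subgroup.subset_closure (by simp)
  have hsS : Sy (Kst v v' S T) S := sy_of hSm G.iS
  have hsT : Sy (Kst v v' S T) T := sy_of hTm G.iT
  have hfF : f0 v v' S T ∈ (Kst v v' S T).F := ⟨1, one_mem _, (img2_one _).symm⟩
  have hTfF : (Set.image T) '' f0 v v' S T ∈ (Kst v v' S T).F := ⟨T, hTm, rfl⟩
  have hSfF : (Set.image S) '' f0 v v' S T ∈ (Kst v v' S T).F := ⟨S, hSm, rfl⟩
  have he0 : ({v, v'} : Set H3) ∈ f0 v v' S T := by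
    have : ({v, v'} : Set H3) ∈ {e | e ∈ f0 v v' S T ∧ v ∈ e} := by rw [hB1]; simp
    exact this.1
  have he1 : ({v, S v'} : Set H3) ∈ f0 v v' S T := by
    have : ({v, S v'} : Set H3) ∈ {e | e ∈ f0 v v' S T ∧ v ∈ e} := by rw [hB1]; simp
    exact this.1
  have heT : ({v, v'} : Set H3) ∈ (Set.image T) '' f0 v v' S T := by
    have : ({v, v'} : Set H3) ∈ {e | e ∈ (Set.image T) '' f0 v v' S T ∧ v ∈ e} := by rw [hB2]; simp
    exact this.1
  have himS : S '' {v, v'} = {v, S v'} := by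
    rw [Set.image_pair, G.Sv]
  have heS : ({v, S v'} : Set H3) ∈ (Set.image S) '' f0 v v' S T := ⟨_, he0, himS⟩
  have himT : T '' {v, v'} = {v, v'} := by
    rw [Set.image_pair, G.Tv, hTv', Set.pair_comm]
  have hne : f0 v v' S T ≠ (Set.image S) '' f0 v v' S T := by
    intro h
    have h4 := he0
    rw [h] at h4
    obtain ⟨e, he, hee⟩ := h4
    have hv : v ∈ e := by
      have : v ∈ S '' e := by rw [hee]; simp
      obtain ⟨x, hx, hxv⟩ := this
      have : x = v := S.injective (by rw [hxv, G.Sv])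
      rwa [← this]
    have h5 : e ∈ {e | e ∈ f0 v v' S T ∧ v ∈ e} := ⟨he, hv⟩
    rw [hB1] at h5
    rcases h5 with h5 | h5
    · rw [h5, himS] at hee
      exact hS1 (pair_inj hee.symm G.ne.symm).symm
    · rw [Set.mem_singleton_iff] at h5
      rw [h5, Set.image_pair, G.Sv] at hee
      have h6 := pair_inj hee.symm G.ne.symm
      exact G.fr 2 (by norm_num) (by have := G.q3; omega) h6.symm
  refine ⟨(v', {v, v'}, f0 v v' S T), (v, {v, S v'}, f0 v v' S T),
    (v', {v, v'}, (Set.image T) '' f0 v v' S T), (v, {v, S v'}, (Set.image S) '' f0 v v' S T), ?_⟩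
  have flΦ : Fl (Kst v v' S T) (v, {v, v'}, f0 v v' S T) := ⟨by simp, he0, hfF⟩
  have flΦ0 : Fl (Kst v v' S T) (v', {v, v'}, f0 v v' S T) := ⟨by simp, he0, hfF⟩
  have flΦ1 : Fl (Kst v v' S T) (v, {v, S v'}, f0 v v' S T) := ⟨by simp, he1, hfF⟩
  have flΦ2 : Fl (Kst v v' S T) (v, {v, v'}, (Set.image T) '' f0 v v' S T) := ⟨by simp, heT, hTfF⟩
  have flΦ02 : Fl (Kst v v' S T) (v', {v, v'}, (Set.image T) '' f0 v v' S T) := ⟨by simp, heT, hTfF⟩
  have flΦ12 : Fl (Kst v v' S T) (v, {v, S v'}, (Set.image S) '' f0 v v' S T) := ⟨by simp, heS, hSfF⟩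
  refine ⟨⟨flΦ, flΦ0, G.ne, rfl, rfl⟩, ⟨flΦ, flΦ1, rfl, ?_, rfl⟩, ⟨flΦ, flΦ2, rfl, rfl, hB3⟩,
    ⟨flΦ0, flΦ02, rfl, rfl, hB3⟩, ⟨flΦ1, flΦ12, rfl, rfl, hne⟩, hsS, hsT, ?_, ?_⟩
  · intro h
    exact hS1 (pair_inj h G.ne.symm).symm
  · simp only [act]
    rw [G.Sv, himS]
  · simp only [act]
    rw [G.Tv, himT]

end Pool.Agent.H18.CP
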