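import Mathlib
import Pool.Agent.H18.CP.DSC

/-!
# The stabilizer of the base point in the planar Coxeter groups (module STB)
-/

namespace Pool.Agent.H18.CP

open Pool.Agent.H57.CP

theorem mk_o (y : V4) : mk o.1 y = y 3 := by
  simp [mk, o]

theorem mk_comm' (x y : V4) : mk x y = mk y x := by
  simp only [mk]; ring

theorem refl_fix (a x : V4) (h : mk a x = 0) : Pool.Agent.H57.CP.refl a x = x := by
  ext i
  simp only [Pool.Agent.H57.CP.refl, LinearMap.coe_mk, AddHom.coe_mk]
  rw [h]; ring

/-- the words of the dihedral group, closed under right multiplication -/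
def Dih (a b : ℕ) (w : (cm a b).Group) : Prop :=
  ∃ k : ℕ, w = (sm a b 1 * sm a b 2) ^ k ∨ w = (sm a b 1 * sm a b 2) ^ k * sm a b 2

theorem pow_two_b (a b : ℕ) : (sm a b 1 * sm a b 2) ^ (2 * b) = 1 := by
  have h : (cm a b 1 2 : ℕ) = 2 * b := rfl
  have := (cm a b).toCoxeterSystem.simple_mul_simple_pow 1 2
  rw [h] at this
  exact this

theorem dih_two {a b : ℕ} {w : (cm a b).Group} (h : Dih a b w) : Dih a b (w * sm a b 2) := by
  obtain ⟨k, rfl | rfl⟩ := h
  · exact ⟨k, Or.inr rfl⟩
  · exact ⟨k, Or.inl (by rw [mul_assoc, CoxeterSystem.simple_mul_simple_self, mul_one])⟩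

theorem dih_one {a b : ℕ} (hb : 2 ≤ b) {w : (cm a b).Group} (h : Dih a b w) :
    Dih a b (w * sm a b 1) := by
  obtain ⟨k, rfl | rfl⟩ := h
  · refine ⟨k + 1, Or.inr ?_⟩
    rw [pow_succ, mul_assoc, mul_assoc (sm a b 1) (sm a b 2) (sm a b 2),
      CoxeterSystem.simple_mul_simple_self, mul_one]
  · refine ⟨k + (2 * b - 1), Or.inl ?_⟩
    rw [pow_add, mul_assoc]
    congr 1
    have h1 : (sm a b 1 * sm a b 2) ^ (2 * b - 1) * (sm a b 1 * sm a b 2) = 1 := by
      rw [← pow_succ, show 2 * b - 1 + 1 = 2 * b by omega, pow_two_b]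
    have h2 : (sm a b 2 * sm a b 1) * (sm a b 1 * sm a b 2) = 1 := by
      rw [mul_assoc, ← mul_assoc (sm a b 1) (sm a b 1) (sm a b 2),
        CoxeterSystem.simple_mul_simple_self, one_mul, CoxeterSystem.simple_mul_simple_self]
    exact mul_right_cancel (h2.trans h1.symm)

theorem stb (h1 : T_TIT) (h2 : T_ROO) (h3 : T_SGL) : T_STB := by
  intro a b σ hab hσ w hw hwo
  have hc := (h2 a b hab).1
  have hs : 0 < Real.sqrt (c0 a b ^ 2 - 1) := Real.sqrt_pos.2 (by nlinarith)
  have m0 : mk o.1 (al a b 0) = -Real.sqrt (c0 a b ^ 2 - 1) := by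
    rw [mk_o]; simp [al]
  have m1 : mk o.1 (al a b 1) = 0 := by rw [mk_o]; simp [al]
  have m2 : mk o.1 (al a b 2) = 0 := by rw [mk_o]; simp [al]
  -- elements fixing the base point are in the dihedral group
  have key : ∀ n : ℕ, ∀ w : (cm a b).Group, (cm a b).toCoxeterSystem.length w = n →
      σ w o.1 = o.1 → Dih a b w := by
    intro n
    induction n using Nat.strong_induction_on with
    | _ n ih =>
      intro w hn hwo
      by_cases hne : w = 1
      · exact ⟨0, Or.inl (by rw [hne, pow_zero])⟩
      obtain ⟨i, hi⟩ := (cm a b).toCoxeterSystem.exists_rightDescent_of_ne_one hne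
      obtain ⟨c, hcp, -, hcn⟩ := neg_root h1 h2 hab hσ w i hi
      have hL := (h3 a b σ hab hσ w).1.1 o.1 (al a b i)
      rw [hwo, hcn] at hL
      have hsum : mk o.1 (-∑ j, c j • al a b j) = c 0 * Real.sqrt (c0 a b ^ 2 - 1) := by
        rw [mk_o]
        simp [Fin.sum_univ_three, al]
      rw [hsum] at hL
      have p0 := hcp 0
      have hi0 : mk (al a b i) o.1 = 0 := by
        rw [mk_comm']
        fin_cases i
        · exfalso
          simp only [Fin.zero_eta, Fin.isValue] at hL
          rw [m0] at hL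
          nlinarith
        · exact m1
        · exact m2
      have hi1 : i ≠ 0 := by
        rintro rfl
        rw [mk_comm', m0] at hi0
        linarith
      have hfix : σ (w * sm a b i) o.1 = o.1 := by
        rw [map_mul, hσ i]
        change σ w (Pool.Agent.H57.CP.refl (al a b i) o.1) = o.1
        rw [refl_fix _ _ hi0, hwo]
      have hlt : (cm a b).toCoxeterSystem.length (w * sm a b i) < n := by
        rw [← hn]; exact hi
      have hD := ih _ hlt _ rfl hfix
      have hw' : w = (w * sm a b i) * sm a b i := by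
        rw [mul_assoc, CoxeterSystem.simple_mul_simple_self, mul_one]
      rw [hw']
      have hi2 : i = 1 ∨ i = 2 := by
        revert hi1
        fin_cases i <;> simp
      rcases hi2 with rfl | rfl
      · exact dih_one hab.2.1 hD
      · exact dih_two hD
  obtain ⟨k, hk | hk⟩ := key _ w rfl hwo
  · exact ⟨k, hk⟩
  · exfalso
    have hpar : (cm a b).toCoxeterSystem.lengthParity w = 1 := by
      have hle : Ev a b ≤ (cm a b).toCoxeterSystem.lengthParity.ker := by
        rw [Ev, Subgroup.closure_le]
        intro x hx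
        rcases hx with rfl | hx
        · rw [SetLike.mem_coe, MonoidHom.mem_ker, map_mul, CoxeterSystem.lengthParity_simple,
            CoxeterSystem.lengthParity_simple]
          rfl
        · rw [Set.mem_singleton_iff] at hx
          rw [hx, SetLike.mem_coe, MonoidHom.mem_ker, map_mul, CoxeterSystem.lengthParity_simple,
            CoxeterSystem.lengthParity_simple]
          rfl
      exact hle hw
    rw [hk, map_mul, map_pow, map_mul, CoxeterSystem.lengthParity_simple,
      CoxeterSystem.lengthParity_simple] at hpar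
    have h5 : (Multiplicative.ofAdd (1 : ZMod 2) * Multiplicative.ofAdd (1 : ZMod 2)) = 1 := rfl
    rw [h5, one_pow, one_mul] at hpar
    exact absurd hpar (by decide)

end Pool.Agent.H18.CP
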